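import Pool.Agent.helper94.AP.SpecB

set_option autoImplicit false

namespace Pool.Agent.AP

open Finset Pool.Agent.helper3.FT

theorem PVB_add (x y : ℝ) : e (x + y) = e x * e y := by
  unfold e
  rw [← Complex.exp_add]
  congr 1
  push_cast
  ring

theorem PVB_int (n : ℤ) : e (n : ℝ) = 1 := by
  unfold e
  rw [Complex.exp_eq_one_iff]
  exact ⟨n, by push_cast; ring⟩

theorem PVB_norm (x : ℝ) : ‖e x‖ = 1 := by
  unfold e
  have h : 2 * (Real.pi : ℂ) * Complex.I * (x : ℂ) = ((2 * Real.pi * x : ℝ) : ℂ) * Complex.I := by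
    push_cast
    ring
  rw [h]
  exact Complex.norm_exp_ofReal_mul_I _

theorem PVB_zero : e 0 = 1 := by
  have h := PVB_int 0
  simpa using h

theorem PVB_pow (x : ℝ) (n : ℕ) : e x ^ n = e (n * x) := by
  unfold e
  rw [← Complex.exp_nat_mul]
  congr 1
  push_cast
  ring

theorem PVB_eq_one {x : ℝ} (h : e x = 1) : ∃ n : ℤ, x = n := by
  unfold e at h
  rw [Complex.exp_eq_one_iff] at h
  obtain ⟨n, hn⟩ := h
  refine ⟨n, ?_⟩
  have h2 : (2 * (Real.pi : ℂ) * Complex.I) ≠ 0 := Complex.two_pi_I_ne_zero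
  have h3 : (2 * (Real.pi : ℂ) * Complex.I) * (x : ℂ) = (2 * (Real.pi : ℂ) * Complex.I) * ((n : ℝ) : ℂ) := by
    rw [hn]
    push_cast
    ring
  exact_mod_cast mul_left_cancel₀ h2 h3

theorem PVB_orth (d : ℕ) (hd : 1 ≤ d) (k : ℤ) :
    ∑ h ∈ range d, e ((h : ℝ) * k / d) = if (d : ℤ) ∣ k then (d : ℂ) else 0 := by
  have hd' : (d : ℝ) ≠ 0 := by positivity
  have hp : ∀ h : ℕ, e ((h : ℝ) * k / d) = e ((k : ℝ) / d) ^ h := fun h => by
    rw [PVB_pow, mul_div_assoc]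
  simp_rw [hp]
  split_ifs with hk
  · obtain ⟨m, rfl⟩ := hk
    have h1 : e ((((d : ℤ) * m : ℤ) : ℝ) / d) = 1 := by
      have h2 : (((d : ℤ) * m : ℤ) : ℝ) / d = (m : ℝ) := by
        push_cast
        field_simp
      rw [h2, PVB_int]
    rw [h1]
    simp
  · have hne : e ((k : ℝ) / d) ≠ 1 := by
      intro h
      obtain ⟨n, hn⟩ := PVB_eq_one h
      apply hk
      refine ⟨n, ?_⟩
      rw [div_eq_iff hd'] at hn
      have h3 : (k : ℝ) = ((d * n : ℤ) : ℝ) := by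
        push_cast
        rw [hn]
        ring
      exact_mod_cast h3
    rw [geom_sum_eq hne, PVB_pow]
    have h4 : (d : ℝ) * ((k : ℝ) / d) = (k : ℝ) := by field_simp
    rw [h4, PVB_int, sub_self, zero_div]

theorem PVB_sin (t : ℝ) (h0 : 0 ≤ t) (h1 : t ≤ 1) : 2 * t * (1 - t) ≤ Real.sin (Real.pi * t) := by
  have hpi := Real.pi_pos
  rcases le_total t (1 / 2) with h | h
  · have h2 := Real.mul_le_sin (x := Real.pi * t) (by positivity) (by nlinarith)
    have h3 : 2 / Real.pi * (Real.pi * t) = 2 * t := by field_simp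
    rw [h3] at h2
    nlinarith
  · have h2 := Real.mul_le_sin (x := Real.pi * (1 - t)) (mul_nonneg hpi.le (by linarith)) (by nlinarith)
    have h3 : 2 / Real.pi * (Real.pi * (1 - t)) = 2 * (1 - t) := by field_simp
    have h4 : Real.sin (Real.pi * (1 - t)) = Real.sin (Real.pi * t) := by
      have h5 : Real.pi * (1 - t) = Real.pi - Real.pi * t := by ring
      rw [h5, Real.sin_pi_sub]
    rw [h3, h4] at h2
    nlinarith

theorem PVB_norm_sub (x : ℝ) : ‖e x - 1‖ = 2 * |Real.sin (Real.pi * x)| := by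
  unfold e
  have h : 2 * (Real.pi : ℂ) * Complex.I * (x : ℂ) = Complex.I * ((2 * Real.pi * x : ℝ) : ℂ) := by
    push_cast
    ring
  rw [h, Complex.norm_exp_I_mul_ofReal_sub_one, norm_mul, Real.norm_eq_abs, Real.norm_eq_abs]
  have h2 : 2 * Real.pi * x / 2 = Real.pi * x := by ring
  rw [h2, abs_two]

/-- the incomplete geometric sum -/
theorem PVB_geo (t : ℝ) (ht0 : 0 < t) (ht1 : t < 1) (A A' : ℤ) :
    ‖∑ x ∈ Ioc A A', e (-(t * x))‖ ≤ 1 / (2 * t * (1 - t)) := by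
  have hpos : 0 < 2 * t * (1 - t) := by
    have : 0 < 1 - t := by linarith
    positivity
  have hsin := PVB_sin t ht0.le ht1.le
  have hI : Ioc A A' = (range (A' - A).toNat).image (fun j : ℕ => A + 1 + (j : ℤ)) := by
    ext x
    simp only [mem_Ioc, mem_image, mem_range]
    constructor
    · rintro ⟨h1, h2⟩
      exact ⟨(x - A - 1).toNat, by omega, by omega⟩
    · rintro ⟨j, hj, rfl⟩
      omega
  have hsum : ∑ x ∈ Ioc A A', e (-(t * x)) =
      e (-(t * ((A : ℝ) + 1))) * ∑ j ∈ range (A' - A).toNat, e (-t) ^ j := by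
    rw [hI, sum_image (by intro a _ b _ hab; simpa using hab), mul_sum]
    refine sum_congr rfl fun j _ => ?_
    rw [PVB_pow, ← PVB_add]
    congr 1
    push_cast
    ring
  have hn1 : ‖e (-t) - 1‖ = 2 * |Real.sin (Real.pi * t)| := by
    rw [PVB_norm_sub, mul_neg, Real.sin_neg, abs_neg]
  have hn2 : 2 * (2 * t * (1 - t)) ≤ ‖e (-t) - 1‖ := by
    rw [hn1]
    have := le_abs_self (Real.sin (Real.pi * t))
    linarith
  have hne : e (-t) ≠ 1 := by
    intro h
    rw [h, sub_self, norm_zero] at hn2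
    linarith
  rw [hsum, norm_mul, PVB_norm, one_mul, geom_sum_eq hne, norm_div]
  have h3 : ‖e (-t) ^ (A' - A).toNat - 1‖ ≤ 2 := by
    refine (norm_sub_le _ _).trans ?_
    rw [norm_pow, PVB_norm, one_pow, norm_one]
    norm_num
  rw [div_le_div_iff₀ (by linarith) hpos]
  nlinarith

/-- completion -/
theorem PVB_compl (d : ℕ) (f : ℤ → ℂ) (hd : 1 ≤ d) (hf : ∀ x : ℤ, f (x + d) = f x) (x : ℤ) :
    (d : ℂ) * f x = ∑ h ∈ range d, (∑ y ∈ range d, f (y : ℤ) * e (((h : ℤ) : ℝ) * y / d)) *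
      e (-((h : ℝ) / d * x)) := by
  have hper : Function.Periodic f (d : ℤ) := hf
  have hd0 : (0 : ℤ) < d := by exact_mod_cast hd
  have h1 : ∀ h : ℕ, ∀ y : ℕ, e (((h : ℤ) : ℝ) * y / d) * e (-((h : ℝ) / d * x)) =
      e ((h : ℝ) * ((y - x : ℤ) : ℝ) / d) := fun h y => by
    rw [← PVB_add]
    congr 1
    push_cast
    ring
  have h2 : ∑ h ∈ range d, (∑ y ∈ range d, f (y : ℤ) * e (((h : ℤ) : ℝ) * y / d)) *
      e (-((h : ℝ) / d * x)) = ∑ y ∈ range d, f (y : ℤ) * (if (d : ℤ) ∣ ((y : ℤ) - x) then (d : ℂ) else 0) := by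
    simp_rw [sum_mul, mul_assoc, h1]
    rw [sum_comm]
    refine sum_congr rfl fun y _ => ?_
    rw [← mul_sum, PVB_orth d hd]
  rw [h2]
  have hm0 : 0 ≤ x % d := Int.emod_nonneg _ hd0.ne'
  have hm1 : x % d < d := Int.emod_lt_of_pos _ hd0
  have hcast : (((x % d).toNat : ℕ) : ℤ) = x % d := Int.toNat_of_nonneg hm0
  rw [sum_eq_single (x % d).toNat]
  · rw [hcast, if_pos ?_]
    · have h3 : f (x % d) = f x := by
        have h4 := hper.int_mul (x / d) (x % d)
        have h5 : x % (d : ℤ) + (x / d) * d = x := by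
          rw [mul_comm]
          exact Int.emod_add_mul_ediv x d
        have h6 : ((x / (d : ℤ) : ℤ) : ℤ) * (d : ℤ) = (x / d) * d := rfl
        simp only [Int.cast_id] at h4
        rw [h5] at h4
        exact h4.symm
      rw [h3]
      ring
    · have h5 := Int.emod_add_mul_ediv x d
      exact ⟨-(x / d), by rw [mul_neg]; omega⟩
  · intro y hy hne
    rw [if_neg, mul_zero]
    intro hdvd
    apply hne
    have hy' := mem_range.1 hy
    have h6 : (y : ℤ) % d = x % d :=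
      Int.emod_eq_emod_iff_emod_sub_eq_zero.2 (Int.emod_eq_zero_of_dvd hdvd)
    have h7 : (y : ℤ) % d = y := Int.emod_eq_of_lt (by positivity) (by exact_mod_cast hy')
    omega
  · intro h
    exact absurd (mem_range.2 (by omega)) h

theorem PVB_harm (n : ℕ) : ∑ i ∈ range n, (1 / ((i : ℝ) + 1) + 1 / ((n : ℝ) - i)) ≤
    2 * (1 + Real.log ((n : ℝ) + 1)) := by
  have h1 : ∑ i ∈ range n, 1 / ((i : ℝ) + 1) ≤ 1 + Real.log ((n : ℝ) + 1) := by
    have h2 := harmonic_le_one_add_log n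
    have h3 : ((harmonic n : ℚ) : ℝ) = ∑ i ∈ range n, 1 / ((i : ℝ) + 1) := by
      unfold harmonic
      push_cast
      refine sum_congr rfl fun i _ => ?_
      rw [one_div]
    rw [h3] at h2
    refine h2.trans ?_
    rcases Nat.eq_zero_or_pos n with rfl | hn
    · simp
    · have h4 : Real.log (n : ℝ) ≤ Real.log ((n : ℝ) + 1) :=
        Real.log_le_log (by exact_mod_cast hn) (by linarith)
      linarith
  have h5 : ∑ i ∈ range n, 1 / ((n : ℝ) - i) = ∑ i ∈ range n, 1 / ((i : ℝ) + 1) := by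
    rw [← sum_range_reflect (fun i => 1 / ((i : ℝ) + 1)) n]
    refine sum_congr rfl fun i hi => ?_
    have hi' := mem_range.1 hi
    have h6 : ((n - 1 - i : ℕ) : ℝ) + 1 = (n : ℝ) - i := by
      have h7 : n - 1 - i + 1 + i = n := by omega
      have h8 : (((n - 1 - i + 1 + i : ℕ)) : ℝ) = n := by exact_mod_cast h7
      push_cast at h8
      linarith
    rw [h6]
  rw [sum_add_distrib, h5]
  linarith

theorem PVB : PVB_stmt := by
  intro d f B hd hB hf hS h0 A A'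
  have hdR : (0 : ℝ) < d := by exact_mod_cast hd
  obtain ⟨n, rfl⟩ : ∃ n, d = n + 1 := ⟨d - 1, by omega⟩
  set S : ℕ → ℂ := fun h => ∑ y ∈ range (n + 1), f (y : ℤ) * e (((h : ℤ) : ℝ) * y / ((n + 1 : ℕ) : ℝ)) with hSdef
  have hkey : ((n + 1 : ℕ) : ℂ) * ∑ x ∈ Ioc A A', f x =
      ∑ h ∈ range (n + 1), S h * ∑ x ∈ Ioc A A', e (-((h : ℝ) / ((n + 1 : ℕ) : ℝ) * x)) := by
    rw [mul_sum, sum_congr rfl (fun x _ => PVB_compl (n + 1) f hd hf x), sum_comm]
    refine sum_congr rfl fun h _ => ?_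
    rw [mul_sum]
  have hS0 : S 0 = 0 := by
    rw [← h0]
    refine sum_congr rfl fun y _ => ?_
    have h1 : (((0 : ℕ) : ℤ) : ℝ) * (y : ℝ) / ((n + 1 : ℕ) : ℝ) = 0 := by
      rw [Nat.cast_zero, Int.cast_zero, zero_mul, zero_div]
    rw [h1, PVB_zero, mul_one]
  have hterm : ∀ i ∈ range n, ‖S (i + 1) * ∑ x ∈ Ioc A A', e (-(((i + 1 : ℕ) : ℝ) / ((n + 1 : ℕ) : ℝ) * x))‖ ≤
      B * (((n : ℝ) + 1) / 2 * (1 / ((i : ℝ) + 1) + 1 / ((n : ℝ) - i))) := by
    intro i hi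
    have hi' := mem_range.1 hi
    have hiR : (i : ℝ) + 1 ≤ n := by exact_mod_cast hi'
    have hi0 : (0 : ℝ) ≤ i := Nat.cast_nonneg i
    rw [norm_mul]
    refine mul_le_mul (hS ((i + 1 : ℕ) : ℤ)) ?_ (norm_nonneg _) hB
    have ht0 : 0 < ((i + 1 : ℕ) : ℝ) / ((n + 1 : ℕ) : ℝ) := by positivity
    have ht1 : ((i + 1 : ℕ) : ℝ) / ((n + 1 : ℕ) : ℝ) < 1 := by
      rw [div_lt_one hdR]
      push_cast
      linarith
    refine (PVB_geo _ ht0 ht1 A A').trans (le_of_eq ?_)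
    have e1 : (i : ℝ) + 1 ≠ 0 := by positivity
    have e2 : (n : ℝ) - i ≠ 0 := by
      have : 0 < (n : ℝ) - i := by linarith
      exact this.ne'
    have e3 : (n : ℝ) + 1 ≠ 0 := by positivity
    have e4 : 1 - ((i : ℝ) + 1) / ((n : ℝ) + 1) = ((n : ℝ) - i) / ((n : ℝ) + 1) := by
      field_simp
      ring
    push_cast
    rw [e4]
    field_simp
    ring
  have hbound : ‖((n + 1 : ℕ) : ℂ) * ∑ x ∈ Ioc A A', f x‖ ≤ ((n : ℝ) + 1) * (B * (1 + Real.log ((n : ℝ) + 1))) := by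
    rw [hkey, sum_range_succ', hS0, zero_mul, add_zero]
    refine (norm_sum_le _ _).trans ((sum_le_sum hterm).trans ?_)
    rw [← mul_sum, ← mul_sum]
    have h1 := PVB_harm n
    have h2 : B * (((n : ℝ) + 1) / 2 * ∑ i ∈ range n, (1 / ((i : ℝ) + 1) + 1 / ((n : ℝ) - i))) ≤
        B * (((n : ℝ) + 1) / 2 * (2 * (1 + Real.log ((n : ℝ) + 1)))) := by
      refine mul_le_mul_of_nonneg_left (mul_le_mul_of_nonneg_left h1 (by positivity)) hB
    refine h2.trans (le_of_eq ?_)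
    ring
  rw [norm_mul, Complex.norm_natCast] at hbound
  have h3 : ((n + 1 : ℕ) : ℝ) = (n : ℝ) + 1 := by push_cast; ring
  rw [h3] at hbound ⊢
  exact le_of_mul_le_mul_left hbound (by positivity)

end Pool.Agent.AP
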